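import Pool.Agent.helper616_TS.Main2

/-!
# Primes of the form `⌊α (m ^ 2 + 1)⌋` for almost all `α`

The Hardy-Littlewood asymptotic for `m ^ 2 + 1` holds for almost all real multiples of this polynomial: for
almost all `α > 0` the number of `m < N` with `⌊α (m ^ 2 + 1)⌋` prime is `~ N / (2 log N)` (the constant
`C / 2` of the conjecture is here replaced by its average `1 / 2`).  More generally, let `S` be a countable set of
real polynomials, for example all polynomials with integer coefficients.  For almost all `α > 0` and for all `P` in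
`S` of degree `d ≥ 1` with positive leading coefficient, the numbers `⌊α P (n)⌋` that are prime have the expected
number in each reduced residue class, with an error `O (N / (log N) ^ A)` for every `A`.

Proof.  Mean square over `u = log α`: the sum over `n` is a sum of translates, by `log P (n)`, of one function of
the logarithmic variable, so that Plancherel's theorem separates the primes from the polynomial. The Fourier
transform of the sum of the translates is the sum of `P (n) ^ (i t)`, which van der Corput's method bounds for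
`1 ≤ |t| ≤ N ^ M`; for small `|t|` one uses the prime number theorem in progressions.
-/

set_option autoImplicit false

open Finset MeasureTheory Filter Topology

namespace Pool.Agent.Results.MP_f1a94e_nt.AlmostAllMultiples

/-- `log m` if `m` is prime, and `0` otherwise. -/
noncomputable def logPrime (m : ℕ) : ℝ := if m.Prime then Real.log m else 0

/-- The integer part of `α P(n)` (`0` if this number is negative). -/
noncomputable def value (α : ℝ) (P : Polynomial ℝ) (n : ℕ) : ℕ := ⌊α * P.eval (n : ℝ)⌋₊

theorem result (S : Set (Polynomial ℝ)) (hS : S.Countable) :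
    ∀ᵐ α : ℝ, 0 < α → ∀ P ∈ S, 1 ≤ P.natDegree → 0 < P.leadingCoeff → ∀ q b : ℕ, 1 ≤ q → b.Coprime q →
      (∀ A : ℕ, ∃ C : ℝ, ∀ N : ℕ, 2 ≤ N →
        |(∑ n ∈ range N, if value α P n ≡ b [MOD q] then logPrime (value α P n) else 0) -
          N / (Nat.totient q : ℝ)| ≤ C * N / (Real.log N) ^ A) ∧
      Tendsto (fun N : ℕ => (((range N).filter (fun n : ℕ =>
        (value α P n).Prime ∧ value α P n ≡ b [MOD q])).card : ℝ) / (N / (P.natDegree * Real.log N)))
        atTop (𝓝 (1 / (Nat.totient q : ℝ))) := by
  have h : ∀ᵐ α : ℝ, ∀ P ∈ S, ∀ q b : ℕ, 1 ≤ P.natDegree → 0 < P.leadingCoeff → 1 ≤ q → b.Coprime q → 0 < α →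
      (∀ A : ℕ, ∃ C : ℝ, ∀ N : ℕ, 2 ≤ N →
        |(∑ n ∈ range N, if value α P n ≡ b [MOD q] then logPrime (value α P n) else 0) -
          N / (Nat.totient q : ℝ)| ≤ C * N / (Real.log N) ^ A) ∧
      Tendsto (fun N : ℕ => (((range N).filter (fun n : ℕ =>
        (value α P n).Prime ∧ value α P n ≡ b [MOD q])).card : ℝ) / (N / (P.natDegree * Real.log N)))
        atTop (𝓝 (1 / (Nat.totient q : ℝ))) := by
    rw [ae_ball_iff hS]
    intro P _
    rw [ae_all_iff]
    intro q
    rw [ae_all_iff]
    intro b
    by_cases h : 1 ≤ P.natDegree ∧ 0 < P.leadingCoeff ∧ 1 ≤ q ∧ b.Coprime q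
    · obtain ⟨h1, h2, h3, h4⟩ := h
      filter_upwards [helper616_TS.poly_ap P h1 h2 q b h3 h4] with α hα _ _ _ _ h0
      exact hα h0
    · filter_upwards with α h1 h2 h3 h4
      exact absurd ⟨h1, h2, h3, h4⟩ h
  filter_upwards [h] with α hα h0 P hP h1 h2 q b h3 h4
  exact hα P hP q b h1 h2 h3 h4 h0

end Pool.Agent.Results.MP_f1a94e_nt.AlmostAllMultiples
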