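import Pool.Agent.X69.Ric.PatC
import Pool.Agent.X69.Ric.PackV
import Pool.Agent.Helper724_Q.PS

/-!
# Patterns in the `n` with `n ^ 2 + 1` prime or almost prime

(1) All but at most `ε X / log X` elements of an arbitrary set `S` of integers `n` in an interval `(A, A + X]`, for
which `n ^ 2 + 1` has no prime factors up to `X ^ κ` (for example the set of all `n > X ^ κ` of the interval with
`n ^ 2 + 1` prime), are centres of patterns in `S` of the predicted number, with differences up to `D`, for every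
`D ≥ (log X) ^ B`.
(2) `M` such sets `S_j` in `M` arbitrary intervals of length `X`, with at least `δ X / log X` elements each, have
common difference vectors: for a positive proportion of the vectors `h ∈ {1, ..., D} ^ m` the `j`-th set contains for
every `P ⊆ {0, ..., k - 1} ^ m` with `0 ∈ P` the predicted number of patterns `n + f · h`, `f ∈ P`, for all `j` at
once. For `m = 1`: a positive proportion of the integers up to `D` are differences of `k`-term arithmetic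
progressions in all the sets `S_j`.
(3) The `n` in `(X, X + Y]`, `X ^ θ ≤ Y ≤ X`, for which `n ^ 2 + 1` has at most `r` prime factors, all of them larger
than `n ^ (1 / r)`, are such a set, so that (1) and (2) are unconditional for them and for their dense subsets.

The proof specialises the theorems of `Pool.Agent.X69.Ric` of the starting library.
-/

set_option autoImplicit false

namespace Pool.Agent.Results.MP_f1a94e_nt.DenseSetPatterns

open Filter

/-- All prime factors of `n ^ 2 + 1` are larger than `y`. -/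
def Rough (y : ℝ) (n : ℕ) : Prop := ∀ q : ℕ, q.Prime → q ∣ n ^ 2 + 1 → y < q

/-- The integer `f · h = f 0 * h 0 + f 1 * h 1 + ...`. -/
def dot {m : ℕ} (f h : Fin m → ℕ) : ℕ := ∑ i, f i * h i

/-- `n` is a centre in `S` for `h`: all the integers `n + f · h` with `|f i| ≤ K` for all `i` are in `S`. -/
def Centre (K : ℕ) (S : Set ℕ) {m : ℕ} (n : ℕ) (h : Fin m → ℕ) : Prop :=
  ∀ f : Fin m → ℤ, (∀ i, |f i| ≤ K) → ∃ s ∈ S, (s : ℤ) = n + ∑ i, f i * (h i : ℤ)

/-- The number of the vectors `h ∈ {1, ..., D} ^ m` for which `n` is a centre in `S`. -/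
noncomputable def patterns (K m D : ℕ) (S : Set ℕ) (n : ℕ) : ℕ :=
  {h : Fin m → ℕ | (∀ i, 1 ≤ h i ∧ h i ≤ D) ∧ Centre K S n h}.ncard

/-- The number of the residues `u` modulo `q` such that `q` divides `w ^ 2 + 1` for some `w = u + f · h`, `f ∈ P`. -/
noncomputable def omega {m : ℕ} (h : Fin m → ℕ) (P : Finset (Fin m → ℕ)) (q : ℕ) : ℕ :=
  {u : ℕ | 1 ≤ u ∧ u ≤ q ∧ ∃ f ∈ P, q ∣ (u + dot f h) ^ 2 + 1}.ncard

/-- The product of the `1 - w q / q` over the primes `q ≤ X`. -/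
noncomputable def product (w : ℕ → ℕ) (X : ℕ) : ℝ :=
  ∏ q ∈ (Finset.Icc 1 X).filter Nat.Prime, (1 - (w q : ℝ) / q)

/-- The number of the `n ∈ S` such that all the `n + f · h`, `f ∈ P`, are in `S`. -/
noncomputable def count (S : Set ℕ) {m : ℕ} (h : Fin m → ℕ) (P : Finset (Fin m → ℕ)) : ℕ :=
  {n : ℕ | n ∈ S ∧ ∀ f ∈ P, n + dot f h ∈ S}.ncard

/-- For all `P ⊆ {0, ..., k - 1} ^ m` with `0 ∈ P`: the integers `f · h`, `f ∈ P`, are different, and for all `j`
the conditions modulo the primes are solvable and the set `S j` contains at least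
`c X ∏ (1 - omega h P q / q)` of the patterns `n + f · h`, `f ∈ P`. -/
def Common {M m : ℕ} (c : ℝ) (k X : ℕ) (S : Fin M → Set ℕ) (h : Fin m → ℕ) : Prop :=
  ∀ P : Finset (Fin m → ℕ), (∀ f ∈ P, ∀ i, f i < k) → (fun _ => 0) ∈ P →
    Set.InjOn (fun f => dot f h) (P : Set (Fin m → ℕ)) ∧
      ∀ j, (∀ q : ℕ, q.Prime → omega h P q < q) ∧
        c * (X * product (omega h P) X) ≤ (count (S j) h P : ℝ)

/-- The `n` for which `n ^ 2 + 1` has at most `r` prime factors, counted with multiplicity, all of them larger than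
`n ^ (1 / r)`. -/
def Almost (r : ℕ) : Set ℕ :=
  {n | ArithmeticFunction.cardFactors (n ^ 2 + 1) ≤ r ∧
    ∀ p : ℕ, p.Prime → p ∣ n ^ 2 + 1 → (n : ℝ) ^ (1 / (r : ℝ)) < p}

/-- the values -/
def V (n : ℕ) (_ : Fin 1) : ℕ := n ^ 2 + 1

/-- the polynomial -/
noncomputable def F (_ : Fin 1) : Polynomial ℤ := Pool.Agent.TH464.PW.quad 1 0 1

theorem hv : ∀ n : ℕ, 1 ≤ n → ∀ i, (F i).eval (n : ℤ) = (V n i : ℤ) := by
  intro n _ i
  unfold F V
  rw [Pool.Agent.TH464.PW.quad_eval]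
  push_cast
  ring

theorem hR : ∀ q n : ℕ, 1 ≤ n → (q ∣ n ^ 2 + 1 ↔ ∃ i, (q : ℤ) ∣ (F i).eval (n : ℤ)) := by
  intro q n hn
  constructor
  · intro h
    refine ⟨0, ?_⟩
    rw [hv n hn 0]
    exact Int.natCast_dvd_natCast.2 h
  · rintro ⟨i, hi⟩
    rw [hv n hn i] at hi
    exact Int.natCast_dvd_natCast.1 hi

theorem sys : Pool.Agent.W123.RU.Poly.Sys F := by
  apply Pool.Agent.Helper724_Q.sys_one 1 0 1 (by norm_num)
  · rintro p hp ⟨h, -, -⟩
    exact hp.one_lt.ne' (Nat.dvd_one.1 (by exact_mod_cast h))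
  · rintro ⟨r, hr⟩
    nlinarith [mul_self_nonneg r]
  · intro p hp
    refine ⟨0, ?_⟩
    intro h
    have h1 : (p : ℤ) ∣ 1 := by simpa using h
    exact hp.one_lt.ne' (Nat.dvd_one.1 (by exact_mod_cast h1))

/-- **Patterns.** -/
theorem result :
    (∀ (m K : ℕ) (κ ε : ℝ), 1 ≤ K → 0 < κ → κ ≤ 1 → 0 < ε →
      ∃ c : ℝ, 0 < c ∧ ∃ B : ℕ, ∀ᶠ X : ℕ in atTop,
      ∀ A D : ℕ, Real.log X ^ B ≤ D → D ≤ X → ∀ S : Set ℕ, S ⊆ Set.Ioc A (A + X) →
        (∀ n ∈ S, Rough ((X : ℝ) ^ κ) n) →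
        ({n : ℕ | n ∈ S ∧ (patterns K m D S n : ℝ) <
          c * ((D : ℝ) ^ m / Real.log X ^ ((2 * K + 1) ^ m - 1))}.ncard : ℝ) ≤ ε * X / Real.log X) ∧
    (∀ (M m k : ℕ) (κ δ : ℝ), 0 < κ → κ ≤ 1 → 0 < δ →
      ∃ c : ℝ, 0 < c ∧ ∃ B : ℕ, ∀ᶠ X : ℕ in atTop,
      ∀ D : ℕ, Real.log X ^ B ≤ D → D ≤ X → ∀ (A : Fin M → ℕ) (S : Fin M → Set ℕ),
        (∀ j, S j ⊆ Set.Ioc (A j) (A j + X)) → (∀ j, ∀ n ∈ S j, Rough ((X : ℝ) ^ κ) n) →
        (∀ j, δ * X / Real.log X ≤ ((S j).ncard : ℝ)) →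
        c * (D : ℝ) ^ m ≤ ({h : Fin m → ℕ | (∀ i, 1 ≤ h i ∧ h i ≤ D) ∧ Common c k X S h}.ncard : ℝ)) ∧
    ∀ θ : ℝ, 0 < θ → θ ≤ 1 → ∃ r₀ : ℕ, 2 ≤ r₀ ∧ ∀ r : ℕ, r₀ ≤ r → ∃ δ : ℝ, 0 < δ ∧
      ∀ᶠ X : ℕ in atTop, ∀ Y : ℕ, (X : ℝ) ^ θ ≤ Y → Y ≤ X →
        δ * Y / Real.log Y ≤ ((Almost r ∩ Set.Ioc X (X + Y)).ncard : ℝ) ∧
        ∀ n ∈ Almost r ∩ Set.Ioc X (X + Y), Rough ((Y : ℝ) ^ (1 / (r : ℝ))) n := by
  have H := sys 
  have hR := hR 
  refine ⟨fun m K κ ε hK hκ hκ1 hε => ?_, fun M m k κ δ hκ hκ1 hδ => ?_, fun θ hθ hθ1 => ?_⟩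
  · obtain ⟨c, hc, B, h⟩ := Pool.Agent.X69.Ric.sys_typS (F ) H (fun q n => q ∣ n ^ 2 + 1)
      (fun q n hn h => (hR q n hn).2 h) m K hK κ ε hκ hκ1 hε
    refine ⟨c, hc, B, ?_⟩
    filter_upwards [h] with X hX A D hBD hDX S hS hSR
    have h1 := hX A D hBD hDX S hS hSR
    rw [pow_one, one_mul] at h1
    exact h1
  · obtain ⟨c, hc, B, h⟩ := Pool.Agent.X69.Ric.sys_common (fun _ : Fin M => F ) (fun _ => H)
      (fun _ q n => q ∣ n ^ 2 + 1) (fun _ => hR) m k κ δ hκ hκ1 hδ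
    refine ⟨c, hc, B, ?_⟩
    filter_upwards [h] with X hX D hBD hDX A S hS hSR hSc
    exact hX D hBD hDX A S hS hSR (fun j => by rw [pow_one]; exact hSc j)
  · obtain ⟨r₀, hr₀, h⟩ := Pool.Agent.X69.Ric.sys_almost_short (F ) H θ hθ hθ1
    refine ⟨r₀, hr₀, fun r hr => ?_⟩
    obtain ⟨c, hc, h1⟩ := h r hr
    have hR0 : (0 : ℝ) < 1 / r := by
      have : (0 : ℝ) < r := by exact_mod_cast (by omega : 0 < r)
      positivity
    refine ⟨c * θ, by positivity, ?_⟩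
    filter_upwards [h1, eventually_ge_atTop 3] with X hX1 hX3 Y hXY hYX
    have e : ∀ n : ℕ, 1 ≤ n → (n ∈ Pool.Agent.X69.Ric.AA (F ) r ↔ n ∈ Almost r) := by
      intro n hn
      rw [Pool.Agent.X69.Ric.AA_iff (F ) (V ) (hv ) r n hn]
      exact ⟨fun hq => hq 0, fun hq _ => hq⟩
    have hX0 : (0 : ℝ) < X := by exact_mod_cast (by omega : 0 < X)
    have hX1' : (1 : ℝ) < X := by exact_mod_cast (by omega : 1 < X)
    have hlX : 0 < Real.log X := Real.log_pos hX1'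
    have hlY : θ * Real.log X ≤ Real.log Y := by
      rw [← Real.log_rpow hX0]
      exact Real.log_le_log (Real.rpow_pos_of_pos hX0 _) hXY
    refine ⟨?_, fun n hn q hq hd => ?_⟩
    · have h2 := hX1 Y hXY hYX
      rw [pow_one] at h2
      calc c * θ * Y / Real.log Y ≤ c * θ * Y / (θ * Real.log X) :=
            div_le_div_of_nonneg_left (by positivity) (by positivity) hlY
        _ = c * Y / Real.log X := by field_simp
        _ ≤ _ := h2
        _ ≤ _ := by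
            apply Nat.cast_le.2
            apply Set.ncard_le_ncard _ ((Set.finite_Ioc X (X + Y)).subset Set.inter_subset_right)
            rintro n ⟨h3, h4⟩
            exact ⟨(e n (by have := h3.1; omega)).1 h4, h3⟩
    · refine lt_of_le_of_lt ?_ (hn.1.2 q hq hd)
      apply Real.rpow_le_rpow (Nat.cast_nonneg _) _ hR0.le
      have := hn.2.1
      exact_mod_cast (by omega : Y ≤ n)

end Pool.Agent.Results.MP_f1a94e_nt.DenseSetPatterns
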