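import Pool.Agent.X69.Ric.PackV
import Pool.Agent.Helper724_Q.PS

/-!
# Gaps between the `n` with `n ^ 2 + 1` prime or almost prime

Let `A` be an arbitrary set of positive integers `n` for which all prime factors of `n ^ 2 + 1` are at least `n ^ δ`, for
example an arbitrary set of integers `n` for which `n ^ 2 + 1` is prime.
(1) If `A` has at least `c X / log X` elements up to `X`, for all large `X` (this follows from the asymptotic formula
of Hardy and Littlewood, if `A` is the set of all `n` with `n ^ 2 + 1` prime), then the set of the limit points of the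
vectors of `m` consecutive gaps of `A`, normalised by the logarithm, has positive Lebesgue measure, for every `m ≥ 1`.
(2) If `A` has at least `c Y / log X` elements in an interval `(Z, Z + Y]`, `Y ≥ X ^ θ`, and no prime factors less
than `X ^ δ` occur there, then at least `κ (log X) ^ m` different vectors `h` with entries at most `K log X` are the
vector of the next `m` gaps of at least `κ Y / (log X) ^ (m + 1)` elements of `A` of the interval.
(3) For all large `r` the set of the `n` for which `n ^ 2 + 1` has at most `r` prime factors, all of them larger than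
`n ^ (1 / r)`, satisfies all the conditions in (1). (4) The conclusion of (2) holds for it in all the intervals
`(X, X + Y]` with large `X` and `X ^ θ ≤ Y ≤ X`.

The proof specialises the theorems of `Pool.Agent.X69.Ric` of the starting library.
-/

set_option autoImplicit false

namespace Pool.Agent.Results.MP_f1a94e_nt.GapVectors

open Filter Topology Finset MeasureTheory

/-- The element number `k` of `A` in increasing order, beginning with the number `0`. -/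
noncomputable def el (A : Set ℕ) (k : ℕ) : ℕ := Nat.nth (· ∈ A) k

/-- The vector of the `m` gaps after the element number `k`, divided by the logarithm. -/
noncomputable def gaps (A : Set ℕ) (m k : ℕ) : Fin m → ℝ := fun i =>
  ((el A (k + i + 1) : ℝ) - el A (k + i)) / Real.log (el A (k + i))

/-- `A` has at least `c X / log X` elements up to `X`, for all large `X`. -/
def Dense (A : Set ℕ) : Prop :=
  ∃ c : ℝ, 0 < c ∧ ∀ᶠ X : ℕ in atTop, c * X / Real.log X ≤ ((A ∩ Set.Icc 1 X).ncard : ℝ)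

/-- `h` is the vector of the `m` gaps of `A` that follow `n`: all its entries are positive, and the elements of `A`
from `n` to `n + h 0 + ... + h (m - 1)` are exactly the `n + h 0 + ... + h (j - 1)`, `j ≤ m`. -/
def Next (A : Set ℕ) {m : ℕ} (h : Fin m → ℕ) (n : ℕ) : Prop :=
  (∀ i, 0 < h i) ∧ ∀ x, (x ∈ A ∧ n ≤ x ∧ x ≤ n + ∑ i, h i) ↔
    ∃ j : ℕ, j ≤ m ∧ x = n + ∑ i ∈ (univ : Finset (Fin m)).filter (fun i : Fin m => (i : ℕ) < j), h i

/-- The number of the elements of `A` in `(Z, Z + Y]` followed by the gaps `h`. -/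
noncomputable def occurrences (A : Set ℕ) (Z Y : ℕ) {m : ℕ} (h : Fin m → ℕ) : ℕ :=
  {n | n ∈ A ∧ n ∈ Set.Ioc Z (Z + Y) ∧ Next A h n}.ncard

/-- The number of the vectors `h` of `m` positive integers up to `K log X` which occur at least
`κ Y / (log X) ^ (m + 1)` times in `(Z, Z + Y]`. -/
noncomputable def frequent (A : Set ℕ) (X Z Y m : ℕ) (K κ : ℝ) : ℕ :=
  {h : Fin m → ℕ | (∀ i, 0 < h i ∧ (h i : ℝ) ≤ K * Real.log X) ∧
    κ * Y / Real.log X ^ (m + 1) ≤ (occurrences A Z Y h : ℝ)}.ncard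

/-- The `n` for which `n ^ 2 + 1` has at most `r` prime factors, counted with multiplicity, all of them larger than
`n ^ (1 / r)`. -/
def Almost (r : ℕ) : Set ℕ :=
  {n | ArithmeticFunction.cardFactors (n ^ 2 + 1) ≤ r ∧
    ∀ p : ℕ, p.Prime → p ∣ n ^ 2 + 1 → (n : ℝ) ^ (1 / (r : ℝ)) < p}

/-- the values -/
def V (n : ℕ) (_ : Fin 1) : ℕ := n ^ 2 + 1

/-- the polynomial -/
noncomputable def F (_ : Fin 1) : Polynomial ℤ := Pool.Agent.TH464.PW.quad 1 0 1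

theorem hv : ∀ n : ℕ, 1 ≤ n → ∀ i, (F i).eval (n : ℤ) = (V n i : ℤ) := by
  intro n _ i
  unfold F V
  rw [Pool.Agent.TH464.PW.quad_eval]
  push_cast
  ring

theorem hR : ∀ q n : ℕ, 1 ≤ n → (q ∣ n ^ 2 + 1 ↔ ∃ i, (q : ℤ) ∣ (F i).eval (n : ℤ)) := by
  intro q n hn
  constructor
  · intro h
    refine ⟨0, ?_⟩
    rw [hv n hn 0]
    exact Int.natCast_dvd_natCast.2 h
  · rintro ⟨i, hi⟩
    rw [hv n hn i] at hi
    exact Int.natCast_dvd_natCast.1 hi

theorem sys : Pool.Agent.W123.RU.Poly.Sys F := by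
  apply Pool.Agent.Helper724_Q.sys_one 1 0 1 (by norm_num)
  · rintro p hp ⟨h, -, -⟩
    exact hp.one_lt.ne' (Nat.dvd_one.1 (by exact_mod_cast h))
  · rintro ⟨r, hr⟩
    nlinarith [mul_self_nonneg r]
  · intro p hp
    refine ⟨0, ?_⟩
    intro h
    have h1 : (p : ℤ) ∣ 1 := by simpa using h
    exact hp.one_lt.ne' (Nat.dvd_one.1 (by exact_mod_cast h1))

theorem gaps_eq (A : Set ℕ) (m k : ℕ) : gaps A m k = Pool.Agent.X69.Ric.gapv 1 A m k := by
  funext i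
  unfold gaps el Pool.Agent.X69.Ric.gapv
  rw [pow_one]

theorem frequent_eq (A : Set ℕ) (X Z Y m : ℕ) (K κ : ℝ) :
    frequent A X Z Y m K κ = Pool.Agent.X69.Ric.frq 1 A X Z Y m K κ := by
  unfold frequent Pool.Agent.X69.Ric.frq
  rw [pow_one, one_mul]
  rfl

/-- **Gaps.** -/
theorem result :
    (∀ (A : Set ℕ) (δ : ℝ), 0 < δ →
      (∀ n ∈ A, ∀ q : ℕ, q.Prime → q ∣ n ^ 2 + 1 → (n : ℝ) ^ δ ≤ q) → Dense A →
      ∀ m : ℕ, 1 ≤ m → 0 < volume {t : Fin m → ℝ | MapClusterPt t atTop (gaps A m)}) ∧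
    (∀ (δ θ c : ℝ) (m : ℕ), 0 < δ → 0 < θ → 0 < c → 1 ≤ m → ∃ K : ℝ, 0 < K ∧ ∃ κ : ℝ, 0 < κ ∧
      ∀ᶠ X : ℕ in atTop, ∀ Z Y : ℕ, (X : ℝ) ^ θ ≤ Y → ∀ A : Set ℕ,
      (∀ n ∈ A, n ∈ Set.Ioc Z (Z + Y) → ∀ q : ℕ, q.Prime → q ∣ n ^ 2 + 1 → (X : ℝ) ^ δ ≤ q) →
      c * Y / Real.log X ≤ ((A ∩ Set.Ioc Z (Z + Y)).ncard : ℝ) →
      κ * Real.log X ^ m ≤ (frequent A X Z Y m K κ : ℝ)) ∧
    (∃ r₀ : ℕ, 2 ≤ r₀ ∧ ∀ r : ℕ, r₀ ≤ r → Dense (Almost r) ∧
      ∀ n ∈ Almost r, ∀ q : ℕ, q.Prime → q ∣ n ^ 2 + 1 → (n : ℝ) ^ (1 / (r : ℝ)) ≤ q) ∧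
    ∀ θ : ℝ, 0 < θ → θ ≤ 1 → ∃ r₀ : ℕ, 2 ≤ r₀ ∧ ∀ r : ℕ, r₀ ≤ r → ∀ m : ℕ, 1 ≤ m →
      ∃ K : ℝ, 0 < K ∧ ∃ κ : ℝ, 0 < κ ∧ ∀ᶠ X : ℕ in atTop, ∀ Y : ℕ, (X : ℝ) ^ θ ≤ Y → Y ≤ X →
        κ * Real.log X ^ m ≤ (frequent (Almost r) X X Y m K κ : ℝ) := by
  have H := sys 
  have hF := hv 
  have part2 : ∀ (δ θ c : ℝ) (m : ℕ), 0 < δ → 0 < θ → 0 < c → 1 ≤ m → ∃ K : ℝ, 0 < K ∧ ∃ κ : ℝ, 0 < κ ∧
      ∀ᶠ X : ℕ in atTop, ∀ Z Y : ℕ, (X : ℝ) ^ θ ≤ Y → ∀ A : Set ℕ,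
      (∀ n ∈ A, n ∈ Set.Ioc Z (Z + Y) → ∀ q : ℕ, q.Prime → q ∣ n ^ 2 + 1 → (X : ℝ) ^ δ ≤ q) →
      c * Y / Real.log X ≤ ((A ∩ Set.Ioc Z (Z + Y)).ncard : ℝ) →
      κ * Real.log X ^ m ≤ (frequent A X Z Y m K κ : ℝ) := by
    intro δ θ c m hδ hθ hc hm
    obtain ⟨K, hK, κ, hκ, h⟩ := Pool.Agent.X69.Ric.v_frq (F ) (V ) le_rfl H hF δ θ c hδ hθ hc m hm
    refine ⟨K, hK, κ, hκ, ?_⟩
    filter_upwards [h] with X hX Z Y hXY A hA hlow
    have h1 := hX Z Y hXY A (fun n hn hnI _ p hp hd => hA n hn hnI p hp hd) (by rw [pow_one]; exact hlow)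
    rw [one_mul] at h1
    rw [frequent_eq]
    exact h1
  refine ⟨fun A δ hδ hA hD m hm => ?_, part2, ?_, fun θ hθ hθ1 => ?_⟩
  · have hM : Pool.Agent.X69.Ric.Many 1 A := by
      obtain ⟨c, hc, h⟩ := hD
      exact ⟨c, hc, by simpa only [pow_one] using h⟩
    have hA' : ∀ n ∈ A, ∀ i, ∀ p : ℕ, p.Prime → (p : ℤ) ∣ (F i).eval (n : ℤ) → (n : ℝ) ^ δ ≤ p := by
      intro n hn i p hp hd
      rcases Nat.eq_zero_or_pos n with h0 | h0
      · rw [h0, Nat.cast_zero, Real.zero_rpow hδ.ne']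
        positivity
      · rw [hF n h0 i] at hd
        exact hA n hn p hp (Int.natCast_dvd_natCast.1 hd)
    have h1 := Pool.Agent.X69.Ric.sys_gaps (F ) le_rfl H A δ hδ hA' hM m hm
    have h2 : gaps A m = Pool.Agent.X69.Ric.gapv 1 A m := funext (gaps_eq A m)
    rw [h2]
    exact h1
  · obtain ⟨r₀, hr₀, h⟩ := Pool.Agent.X69.Ric.sys_almost (F ) H
    refine ⟨r₀, hr₀, fun r hr => ⟨?_, fun n hn q hq hd => (hn.2 q hq hd).le⟩⟩
    obtain ⟨c, hc, h1⟩ := h r hr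
    refine ⟨c, hc, ?_⟩
    filter_upwards [h1] with X hX
    rw [pow_one] at hX
    refine hX.trans (le_of_eq ?_)
    congr 2
    ext n
    constructor
    · rintro ⟨h2, h3⟩
      exact ⟨((Pool.Agent.X69.Ric.AA_iff (F ) (V ) hF r n h3.1).1 h2) 0, h3⟩
    · rintro ⟨h2, h3⟩
      exact ⟨(Pool.Agent.X69.Ric.AA_iff (F ) (V ) hF r n h3.1).2 (fun _ => h2), h3⟩
  · obtain ⟨r₀, hr₀, h⟩ := Pool.Agent.X69.Ric.sys_almost_short (F ) H θ hθ hθ1
    refine ⟨r₀, hr₀, fun r hr m hm => ?_⟩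
    obtain ⟨c, hc, h1⟩ := h r hr
    have hr0 : (0 : ℝ) < 1 / r := by
      have : (0 : ℝ) < r := by exact_mod_cast (by omega : 0 < r)
      positivity
    obtain ⟨K, hK, κ, hκ, h2⟩ := part2 (1 / r) θ c m hr0 hθ hc hm
    refine ⟨K, hK, κ, hκ, ?_⟩
    filter_upwards [h1, h2] with X hX1 hX2 Y hXY hYX
    refine hX2 X Y hXY (Almost r) ?_ ?_
    · intro n hn hnI q hq hd
      refine le_trans ?_ (hn.2 q hq hd).le
      exact Real.rpow_le_rpow (Nat.cast_nonneg _) (by exact_mod_cast hnI.1.le) hr0.le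
    · have h3 := hX1 Y hXY hYX
      rw [pow_one] at h3
      refine h3.trans (le_of_eq ?_)
      rw [Set.inter_comm]
      congr 2
      ext n
      constructor
      · rintro ⟨h4, h5⟩
        exact ⟨((Pool.Agent.X69.Ric.AA_iff (F ) (V ) hF r n
          (by have := h5.1; omega)).1 h4) 0, h5⟩
      · rintro ⟨h4, h5⟩
        exact ⟨(Pool.Agent.X69.Ric.AA_iff (F ) (V ) hF r n
          (by have := h5.1; omega)).2 (fun _ => h4), h5⟩

end Pool.Agent.Results.MP_f1a94e_nt.GapVectors
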