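import Pool.Agent.helper24_UT.Ch22

set_option autoImplicit false

/-!
# Primes `n² + a` in short windows of `n`, in all classes to all moduli, and for `n` in a given set, for almost all `a`

Let `ε > 0` and `A` be fixed and let `N` be large. For every `m` and for all but at most `N / (log N) ^ A` of the integers `a` with `|a| ≤ N`, the number of the
`n` with `m < n ≤ m + y` for which `n² + a` is prime (more precisely `± (n² + a)`, weighted by the logarithm) is `y` times the Euler product over the primes `p ≤ z`,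
with the error `y / (log N) ^ A`, for ALL `y` with `m ≤ y ^ 2`, `N ^ (1 / 3 + ε) ≤ y (m + y)` and `(m + y) ^ 2 ≤ N`; for instance for `y = N ^ (1 / 6 + ε)` if `m = 0` and for
`y = N ^ (1 / 9 + ε)` if `m = N ^ (2 / 9)`. The same holds, in mean square, for the `n` in all residue classes to ALL moduli
`q ≤ y exp (- 2 √(log N))`, with lengths `w(q, s) ≤ y` chosen as unfavourably as possible. For arbitrary weights `u(n)` (for instance, for the `n` in an arbitrary set of
integers) the sum over the `n` with `n² + a` prime is asymptotically the sum of `u(n)` over the `n` with `n² + a` free of prime factors `≤ z`, divided by the density,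
for almost all `a` and again for all `y` and, in mean square, in all classes to all moduli `q ≤ y / (log N) ^ B`.

Proof. The squares of the `n` in the window have nearly minimal additive energy of order `3` or more, relative to the length `y (m + y)` of the interval they lie in, so the
correlations of the primes minus their sieve model along `n² + a`, with arbitrary weights, are bounded by the mean square of exponential sums over primes in
intervals of length `y (m + y)` (`Pool.Agent.helper24_UT.Ch.t_MKT`, the method of Mikawa); the theorem of Barban, Davenport and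
Halberstam for sequences which are equidistributed in classes to small moduli gives the large moduli.
-/

namespace Pool.Agent.Results.MP_f1a94e_nt.WindowsAndClasses

open Finset Polynomial

/-- `log |n ^ 2 + a|` if `|n ^ 2 + a|` is a prime, `0` otherwise -/
noncomputable def lp (a : ℤ) (n : ℕ) : ℝ :=
  if ((n : ℤ) ^ 2 + a).natAbs.Prime then Real.log (((n : ℤ) ^ 2 + a).natAbs : ℝ) else 0

open Classical in
/-- the sieve model: the inverse of `∏_{p ≤ z} (1 - 1 / p)` if `n ^ 2 + a` has no prime factor `p ≤ z`, `0` otherwise -/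
noncomputable def model (z : ℕ) (a : ℤ) (n : ℕ) : ℝ :=
  if ∀ p ∈ (Icc 1 z).filter Nat.Prime, ¬ (p : ℤ) ∣ (n : ℤ) ^ 2 + a then
    (∏ p ∈ (Icc 1 z).filter Nat.Prime, (1 - 1 / (p : ℝ)))⁻¹ else 0

/-- the number of the `t`, `0 ≤ t < p`, with `(q t + s)² + a ≡ 0 (mod p)` -/
def roots (a : ℤ) (q s p : ℕ) : ℕ := ((range p).filter (fun t : ℕ => (p : ℤ) ∣ ((q : ℤ) * t + s) ^ 2 + a)).card

/-- the Euler product of the numbers `n ^ 2 + a`, `n ≡ s (mod q)`, over the primes `p ≤ z` -/
noncomputable def product (z : ℕ) (a : ℤ) (q s : ℕ) : ℝ :=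
  ∏ p ∈ (Icc 1 z).filter Nat.Prime, (1 - (roots a q s p : ℝ) / p) / (1 - 1 / (p : ℝ))

/-- the window `m < n ≤ m + y`: `y ≥ √m`, `y (m + y) ≥ N ^ (1 / 3 + ε)` and `m + y ≤ √N` -/
def Window (ε : ℝ) (N m y : ℕ) : Prop := m ≤ y ^ 2 ∧ (N : ℝ) ^ (1 / 3 + ε) ≤ (y : ℝ) * (m + y) ∧ (m + y) ^ 2 ≤ N

/-- For all windows `m < n ≤ m + y`: (1) the sum of `lp a n` over the window is `y` times the Euler product up to
`y / (log N) ^ A`; (2) for all `Q ≤ y exp (- 2 √(log N))` and all `w q s ≤ y` the sum, over all `q ≤ Q` and all classes `s` modulo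
`q`, of the squares of the error for the `n` with `m < n ≤ m + w q s`, `n ≡ s (mod q)`, is at most `y ^ 2 / (log N) ^ A`; (3) there is
an `n` in the window for which `|n ^ 2 + a|` is prime. -/
def Good (ε : ℝ) (A N z m : ℕ) (a : ℤ) : Prop :=
  ∀ y : ℕ, Window ε N m y →
    |∑ n ∈ Ioc m (m + y), lp a n - y * product z a 1 0| ≤ y / Real.log N ^ A ∧
    (∀ Q : ℕ, (Q : ℝ) * Real.exp (2 * Real.sqrt (Real.log N)) ≤ y → ∀ w : ℕ → ℕ → ℕ, (∀ q s, w q s ≤ y) →
      ∑ q ∈ Icc 1 Q, ∑ s ∈ range q, (∑ n ∈ (Ioc m (m + w q s)).filter (fun n => n % q = s), lp a n -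
        (w q s : ℝ) / q * product z a q s) ^ 2 ≤ (y : ℝ) ^ 2 / Real.log N ^ A) ∧
    ∃ n : ℕ, m < n ∧ n ≤ m + y ∧ ((n : ℤ) ^ 2 + a).natAbs.Prime

/-- For the weights `u(n)`: for all windows, all `Q ≤ y / (log N) ^ B` and all `w q s ≤ y` the sum,
over all `q ≤ Q` and all classes `s` modulo `q`, of the squares of the sums of `u(n) (lp a n - model z a n)` over the `n` with `m < n ≤ m + w q s`,
`n ≡ s (mod q)`, is at most `y ^ 2 / (log N) ^ A`. -/
def GoodW (ε : ℝ) (A B N z m : ℕ) (u : ℕ → ℝ) (a : ℤ) : Prop :=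
  ∀ y : ℕ, Window ε N m y →
    ∀ Q : ℕ, (Q : ℝ) * Real.log N ^ B ≤ y → ∀ w : ℕ → ℕ → ℕ, (∀ q s, w q s ≤ y) →
      ∑ q ∈ Icc 1 Q, ∑ s ∈ range q, (∑ n ∈ (Ioc m (m + w q s)).filter (fun n => n % q = s),
        u n * (lp a n - model z a n)) ^ 2 ≤ (y : ℝ) ^ 2 / Real.log N ^ A

lemma model_eq (z : ℕ) (a : ℤ) (n : ℕ) : Pool.Agent.helper24_UT.lz z ((n : ℤ) ^ 2 + a) = model z a n := rfl

lemma lp_eq (a : ℤ) (n : ℕ) : Pool.Agent.helper24_UT.lq a n = lp a n := rfl

lemma product_eq (z : ℕ) (a : ℤ) (q s : ℕ) : Pool.Agent.helper24_UT.sg z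
    (fun _ : Fin 1 => (C (q : ℤ) * X + C (s : ℤ)) ^ 2 + C a) = product z a q s := by
  classical
  unfold Pool.Agent.helper24_UT.sg product
  apply prod_congr rfl
  intro p _
  rw [pow_one]
  congr 3
  unfold Pool.Agent.helper24_UT.om roots
  congr 2
  ext t
  simp only [mem_filter]
  apply and_congr_right
  intro _
  have e : ((C (q : ℤ) * X + C (s : ℤ)) ^ 2 + C a : ℤ[X]).eval (t : ℤ) = ((q : ℤ) * t + s) ^ 2 + a := by
    rw [eval_add, eval_pow, eval_add, eval_mul, eval_C, eval_X, eval_C, eval_C]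
  constructor
  · rintro ⟨i, hi⟩
    rw [e] at hi
    exact hi
  · intro h
    refine ⟨0, ?_⟩
    rw [e]
    exact h

/-- no fixed prime divisor -/
lemma no_fixed (a : ℤ) (p : ℕ) (hp : p.Prime) : ∃ m : ℤ, ¬ (p : ℤ) ∣ m ^ 2 + a := by
  have hpp : Prime (p : ℤ) := Nat.prime_iff_prime_int.1 hp
  by_contra hcon
  push Not at hcon
  have k0 := hcon 0
  have k1 := hcon 1
  have k3 : (p : ℤ) ∣ 1 := by
    have := dvd_sub k1 k0
    have e : ((1 : ℤ) ^ 2 + a - (0 ^ 2 + a)) = 1 := by ring
    rwa [e] at this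
  exact hpp.not_dvd_one k3

/-- the windows are longer than `exp (2 √(log N))` -/
lemma exp_large : ∃ N₁ : ℕ, ∀ N : ℕ, N₁ ≤ N → ∀ (ε : ℝ), 0 < ε → ∀ m y : ℕ, Window ε N m y →
    Real.exp (2 * Real.sqrt (Real.log N)) ≤ y := by
  have hlog : Filter.Tendsto (fun N : ℕ => Real.log (N : ℝ)) Filter.atTop Filter.atTop :=
    Real.tendsto_log_atTop.comp tendsto_natCast_atTop_atTop
  obtain ⟨N₁, h1⟩ := Filter.eventually_atTop.1 (hlog.eventually_ge_atTop 10000)
  refine ⟨max N₁ 1, fun N hN ε hε m y hW => ?_⟩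
  obtain ⟨hmy, hy, _⟩ := hW
  have hL : 10000 ≤ Real.log N := h1 N ((le_max_left _ _).trans hN)
  have hN0 : (0 : ℝ) < N := by exact_mod_cast (le_max_right _ _).trans hN
  have hN1 : (1 : ℝ) ≤ N := by exact_mod_cast (le_max_right _ _).trans hN
  have h2 : (N : ℝ) ^ (1 / 3 : ℝ) ≤ (y : ℝ) * (m + y) :=
    (Real.rpow_le_rpow_of_exponent_le hN1 (by linarith)).trans hy
  have hy1 : (1 : ℝ) ≤ y := by
    have h3 : (0 : ℝ) < (y : ℝ) * (m + y) := lt_of_lt_of_le (by positivity) h2
    have h4 : y ≠ 0 := by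
      rintro rfl
      simp at h3
    exact_mod_cast Nat.one_le_iff_ne_zero.2 h4
  have hmy' : (m : ℝ) ≤ (y : ℝ) ^ 2 := by exact_mod_cast hmy
  have h5 : (N : ℝ) ^ (1 / 3 : ℝ) ≤ 2 * (y : ℝ) ^ 3 := by
    refine h2.trans ?_
    have h6 : (y : ℝ) ≤ (y : ℝ) ^ 2 := by nlinarith
    have h7 : (y : ℝ) * (m + y) ≤ y * (y ^ 2 + y ^ 2) :=
      mul_le_mul_of_nonneg_left (add_le_add hmy' h6) (by linarith)
    refine h7.trans (le_of_eq ?_)
    ring
  by_contra hcon
  push Not at hcon
  set e := Real.exp (2 * Real.sqrt (Real.log N)) with hedef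
  have h8 : (y : ℝ) ^ 3 ≤ e ^ 3 := pow_le_pow_left₀ (by linarith) hcon.le 3
  have h9 : (N : ℝ) ^ (1 / 3 : ℝ) ≤ 2 * e ^ 3 := by linarith
  have h10 : (2 : ℝ) * e ^ 3 < (N : ℝ) ^ (1 / 3 : ℝ) := by
    have h11 : (2 : ℝ) < Real.exp 1 := by
      have := Real.add_one_lt_exp (one_ne_zero : (1 : ℝ) ≠ 0)
      linarith
    calc (2 : ℝ) * e ^ 3 < Real.exp 1 * e ^ 3 := mul_lt_mul_of_pos_right h11 (pow_pos (Real.exp_pos _) 3)
      _ = Real.exp (1 + 6 * Real.sqrt (Real.log N)) := by
          rw [hedef, ← Real.exp_nat_mul, ← Real.exp_add]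
          congr 1
          push_cast
          ring
      _ ≤ Real.exp (Real.log N * (1 / 3)) := by
          apply Real.exp_le_exp.2
          have h12 : (100 : ℝ) ≤ Real.sqrt (Real.log N) := by
            apply Real.le_sqrt_of_sq_le
            linarith
          have h13 := Real.mul_self_sqrt (by linarith : (0 : ℝ) ≤ Real.log N)
          nlinarith
      _ = _ := (Real.rpow_def_of_pos hN0 _).symm
  linarith

open Classical in
/-- **Primes `n² + a` in short windows, in all classes to all moduli, for almost all `a`.** -/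
theorem result (ε : ℝ) (hε : 0 < ε) (A T : ℕ) : ∃ E₀ B : ℕ, ∀ E₁ : ℕ, ∃ N₀ : ℕ, ∀ N : ℕ, N₀ ≤ N → ∀ z : ℕ,
    Real.log N ^ E₀ ≤ z → (z : ℝ) ≤ Real.log N ^ E₁ → ∀ m : ℕ,
    (((Icc (-(N : ℤ)) N).filter (fun a => ¬ Good ε A N z m a)).card : ℝ) ≤ N / Real.log N ^ A ∧
    ∀ u : ℕ → ℝ, (∀ n, n ≤ N → |u n| ≤ Real.log N ^ T) →
      (((Icc (-(N : ℤ)) N).filter (fun a => ¬ GoodW ε A B N z m u a)).card : ℝ) ≤ N / Real.log N ^ A := by
  obtain ⟨e, he⟩ := exists_nat_gt (1 / ε)
  have he0 : (0 : ℝ) < e := lt_trans (by positivity) he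
  have he1 : 1 ≤ e := by exact_mod_cast he0
  have hle : 1 / (e : ℝ) ≤ ε := by
    rw [div_le_iff₀ he0]
    rw [div_lt_iff₀ hε] at he
    linarith
  obtain ⟨E₀, h⟩ := Pool.Agent.helper24_UT.Ch.t_SQH e (2 * A + 4) he1
  obtain ⟨E₀', B, h'⟩ := Pool.Agent.helper24_UT.Ch.t_SQC e A T he1
  refine ⟨max E₀ E₀', B, fun E₁ => ?_⟩
  obtain ⟨N₀, h0⟩ := h E₁
  obtain ⟨N₀', h0'⟩ := h' E₁
  obtain ⟨N₁, h1⟩ := Pool.Agent.helper24_UT.Low.main 1 2 E₁
  obtain ⟨N₃, h3⟩ := exp_large
  have hlog : Filter.Tendsto (fun N : ℕ => Real.log (N : ℝ)) Filter.atTop Filter.atTop :=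
    Real.tendsto_log_atTop.comp tendsto_natCast_atTop_atTop
  obtain ⟨N₂, hN₂⟩ := Filter.eventually_atTop.1 (hlog.eventually_ge_atTop 2)
  refine ⟨max (max (max N₀ N₀') N₁) (max N₂ (max N₃ 1)), fun N hN z hz1 hz2 m => ?_⟩
  have hNN0 : N₀ ≤ N := (le_max_left _ _).trans ((le_max_left _ _).trans ((le_max_left _ _).trans hN))
  have hNN0' : N₀' ≤ N := (le_max_right _ _).trans ((le_max_left _ _).trans ((le_max_left _ _).trans hN))
  have hNN1 : N₁ ≤ N := (le_max_right _ _).trans ((le_max_left _ _).trans hN)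
  have hL2 : 2 ≤ Real.log N := hN₂ N ((le_max_left _ _).trans ((le_max_right _ _).trans hN))
  have hNN3 : N₃ ≤ N := (le_max_left _ _).trans ((le_max_right _ _).trans ((le_max_right _ _).trans hN))
  have hN1 : 1 ≤ N := (le_max_right _ _).trans ((le_max_right _ _).trans ((le_max_right _ _).trans hN))
  have hN0 : (0 : ℝ) < N := by exact_mod_cast hN1
  have hL0 : 0 < Real.log N := by linarith
  have hz1a : Real.log N ^ E₀ ≤ z := (pow_le_pow_right₀ (by linarith) (le_max_left _ _)).trans hz1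
  have hz1b : Real.log N ^ E₀' ≤ z := (pow_le_pow_right₀ (by linarith) (le_max_right _ _)).trans hz1
  have hrange : ∀ y : ℕ, Window ε N m y → Pool.Agent.helper24_UT.Wd (1 / 3) e N m y := by
    intro y hy
    exact ⟨hy.1, (Real.rpow_le_rpow_of_exponent_le (by exact_mod_cast hN1) (by linarith)).trans hy.2.1, hy.2.2⟩
  constructor
  · have key := h0 N hNN0 z hz1a hz2 m
    refine le_trans ?_ (key.trans ?_)
    · refine Nat.cast_le.2 (card_le_card ?_)
      intro a ha
      rw [mem_filter] at ha ⊢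
      refine ⟨ha.1, ?_⟩
      by_contra hcon
      push Not at hcon
      apply ha.2
      intro y hW
      have hyE := h3 N hNN3 ε hε m y hW
      have hy0 : (0 : ℝ) < y := (Real.exp_pos _).trans_le hyE
      have hmain := hcon y (hrange y hW)
      have hmain' : ∀ Q : ℕ, (Q : ℝ) * Real.exp (2 * Real.sqrt (Real.log N)) ≤ y → ∀ w : ℕ → ℕ → ℕ, (∀ q s, w q s ≤ y) →
          ∑ q ∈ Icc 1 Q, ∑ s ∈ range q, (∑ n ∈ (Ioc m (m + w q s)).filter (fun n => n % q = s), lp a n -
            (w q s : ℝ) / q * product z a q s) ^ 2 ≤ (y : ℝ) ^ 2 / Real.log N ^ (2 * A + 4) := by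
        intro Q hQ w hw
        have h4 := hmain Q hQ w hw
        simp only [lp_eq, product_eq] at h4
        exact h4
      have hone : |∑ n ∈ Ioc m (m + y), lp a n - y * product z a 1 0| ≤ y / Real.log N ^ (A + 2) := by
        have h4 := hmain' 1 (by rw [Nat.cast_one, one_mul]; exact hyE) (fun _ _ => y) (fun _ _ => le_rfl)
        rw [Icc_self, sum_singleton, range_one, sum_singleton, Nat.cast_one, div_one] at h4
        have e1 : (Ioc m (m + y)).filter (fun n => n % 1 = 0) = Ioc m (m + y) := filter_true_of_mem fun n _ => Nat.mod_one n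
        rw [e1] at h4
        apply abs_le_of_sq_le_sq _ (by positivity)
        rw [div_pow, ← pow_mul]
        refine h4.trans (le_of_eq ?_)
        congr 2
        ring
      refine ⟨hone.trans ?_, fun Q hQ w hw => (hmain' Q hQ w hw).trans ?_, ?_⟩
      · apply div_le_div_of_nonneg_left (Nat.cast_nonneg _) (by positivity)
        exact pow_le_pow_right₀ (by linarith) (by omega)
      · apply div_le_div_of_nonneg_left (by positivity) (by positivity)
        exact pow_le_pow_right₀ (by linarith) (by omega)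
      · have hlow : 1 / Real.log N ≤ product z a 1 0 := by
          rw [← product_eq]
          apply h1 N hNN1 z hz2
          · intro i
            have e2 : (C ((1 : ℕ) : ℤ) * X + C ((0 : ℕ) : ℤ)) ^ 2 + C a = (X ^ 2 + C a : ℤ[X]) := by simp
            rw [e2, natDegree_add_C, natDegree_X_pow]
          · intro p hp
            obtain ⟨m', hm⟩ := no_fixed a p hp
            refine ⟨m', fun i => ?_⟩
            have e2 : (C ((1 : ℕ) : ℤ) * X + C ((0 : ℕ) : ℤ)) ^ 2 + C a = (X ^ 2 + C a : ℤ[X]) := by simp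
            rw [e2, eval_add, eval_pow, eval_X, eval_C]
            exact hm
        by_contra hno
        push Not at hno
        have hz : ∑ n ∈ Ioc m (m + y), lp a n = 0 := by
          apply sum_eq_zero
          intro n hn
          have hn1 := mem_Ioc.1 hn
          unfold lp
          rw [if_neg]
          exact hno n hn1.1 hn1.2
        rw [hz, zero_sub, abs_neg, abs_of_nonneg (mul_nonneg hy0.le ((by positivity : (0 : ℝ) ≤ 1 / Real.log N).trans hlow))] at hone
        have h4 : (y : ℝ) / Real.log N ^ (A + 2) < y * product z a 1 0 := by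
          calc (y : ℝ) / Real.log N ^ (A + 2) < y * (1 / Real.log N) := by
                rw [mul_one_div]
                apply div_lt_div_of_pos_left hy0 hL0
                calc Real.log N = Real.log N ^ 1 := (pow_one _).symm
                  _ < Real.log N ^ (A + 2) := pow_lt_pow_right₀ (by linarith) (by omega)
            _ ≤ _ := mul_le_mul_of_nonneg_left hlow hy0.le
        linarith
    · apply div_le_div_of_nonneg_left hN0.le (by positivity)
      exact pow_le_pow_right₀ (by linarith) (by omega)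
  · intro u hu
    have key := h0' N hNN0' z hz1b hz2 m (fun n => if n ≤ N then u n else 0) (by
      intro n
      split_ifs with h4
      · exact hu n h4
      · rw [abs_zero]
        positivity)
    refine le_trans ?_ key
    refine Nat.cast_le.2 (card_le_card ?_)
    intro a ha
    rw [mem_filter] at ha ⊢
    refine ⟨ha.1, ?_⟩
    by_contra hcon
    push Not at hcon
    apply ha.2
    intro y hW Q hQ w hw
    have h4 := hcon y (hrange y hW) Q hQ w hw
    simp only [lp_eq, model_eq] at h4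
    refine le_trans (le_of_eq ?_) h4
    apply sum_congr rfl
    intro q _
    apply sum_congr rfl
    intro s _
    congr 1
    apply sum_congr rfl
    intro n hn
    have hn1 := mem_Ioc.1 (mem_filter.1 hn).1
    have hmy : m + y ≤ N := le_trans (Nat.le_self_pow (by norm_num) _) hW.2.2
    have h5 : n ≤ N := by
      have := hw q s
      omega
    rw [if_pos h5]

end Pool.Agent.Results.MP_f1a94e_nt.WindowsAndClasses
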